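import Mathlib
import Pool.Agent.Helper83.CakeDefs
import Pool.Agent.Helper83.AllButOneProof

set_option autoImplicit false

open MeasureTheory Set

namespace Pool.Agent.Results.MP_b3d40b_lc.AllButOne

open Pool.Agent.Helper83.Cake

/-- **All but one.** For every `n ≥ 0` and `ε > 0` there is a truthful mechanism for `n + 1` agents,
allocating the whole cake, in which all agents but the last one always get a positive value, and
in which the last agent always gets a set of measure at least `1 - ε`; so the last agent also gets
a positive value whenever its density is positive on a set of measure larger than `ε`. -/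
theorem result (n : ℕ) (ε : ℝ) (hε : 0 < ε) :
    ∃ M : (Fin (n + 1) → Density) → Fin (n + 1) → Set unitInterval,
      IsMechanism M ∧ Truthful M ∧
      (∀ d, ∀ i, i ≠ Fin.last n → 0 < value (d i) (M d i)) ∧
      (∀ d, 1 - ε ≤ volume.real (M d (Fin.last n))) ∧
      (∀ d, ε < volume.real {x | 0 < (d (Fin.last n)).1 x} →
        0 < value (d (Fin.last n)) (M d (Fin.last n))) :=
  Helper83.ABO.main n ε hε

end Pool.Agent.Results.MP_b3d40b_lc.AllButOne
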