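import Pool.Agent.Helper83.TM.Main
import Pool.Agent.Helper83.TM.St.MechS
import Pool.Agent.Helper83.TM.NB.Main
import Pool.Agent.Helper83.TM.NB.MechS

set_option autoImplicit false

open MeasureTheory Set

namespace Pool.Agent.Results.MP_b3d40b_lc.LocallyFiniteMechanisms

open Pool.Agent.Helper83.Cake Pool.Agent.Helper83.TM

/-- two agents: a mechanism that divides the whole cake is non-bossy -/
lemma nonBossy_two (M : (Fin 2 → Density) → Fin 2 → Set unitInterval) (hM : IsMechanism M) :
    NonBossy M := by
  have hc : ∀ d (i j : Fin 2), i ≠ j → M d j = (M d i)ᶜ := by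
    intro d i j hij
    ext x
    have hx : x ∈ ⋃ k, M d k := by rw [hM.cover d]; trivial
    rw [mem_iUnion] at hx
    constructor
    · intro h1 h0
      exact (disjoint_left.1 (hM.disj d i j hij)) h0 h1
    · intro h0
      obtain ⟨k, hk⟩ := hx
      have : k = i ∨ k = j := by omega
      rcases this with rfl | rfl
      · exact absurd hk h0
      · exact hk
  intro d i f h j
  by_cases hij : i = j
  · subst hij; exact h
  · rw [hc _ i j hij, hc _ i j hij]
    exact h.compl

/-- Let `M` be a truthful mechanism for `n ≥ 2` agents that always divides the whole cake, is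
locally finite and, if `n ≥ 4`, non-bossy.  Then on some profile some agent receives a piece of
value zero. -/
theorem result {n : ℕ} (hn : 2 ≤ n) (M : (Fin n → Density) → Fin n → Set unitInterval)
    (hM : IsMechanism M) (hT : Truthful M) (hF : LocallyFiniteMech M)
    (hB : 4 ≤ n → NonBossy M) : ∃ d i, value (d i) (M d i) = 0 := by
  by_contra hcon
  push Not at hcon
  have pos : ∀ d i, 0 < value (d i) (M d i) := fun d i =>
    lt_of_le_of_ne (value_nonneg _ _) (Ne.symm (hcon d i))
  by_cases h3 : n = 3
  · subst h3
    obtain ⟨m⟩ := exists_mech M hM hT hF pos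
    exact core m
  · have hB' : NonBossy M := by
      by_cases h2 : n = 2
      · subst h2
        exact nonBossy_two M hM
      · exact hB (by omega)
    obtain ⟨m⟩ := exists_mechN M hM hT hF hB' pos
    exact coreN m (by simpa using hn)

end Pool.Agent.Results.MP_b3d40b_lc.LocallyFiniteMechanisms
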