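import Mathlib
import Pool.Agent.Helper95.CK.Main

set_option autoImplicit false

open MeasureTheory Set

namespace Pool.Agent.Results.MP_b3d40b_lc.NoFixedFraction

open Pool.Agent.Helper83.Cake Pool.Agent.Helper95.CK

/-- If two agents `p` and `q` never gain by a misreport and the value that `q` receives depends
only on the joint distribution of the reported densities, then no fixed fraction of their values
of the cake is guaranteed to `p` and `q`. -/
theorem result (n : ℕ) (M : (Fin n → Density) → Fin n → Set unitInterval)
    (hM : IsMechanismD M) (p q : Fin n) (hpq : p ≠ q) (hp : TruthfulFor M p)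
    (hq : TruthfulFor M q) (ho : PositionOblivious M q) (α : ℝ) (hα : 0 < α) :
    ∃ d : Fin n → Density, (∀ i, i ≠ p → i ≠ q → ∀ x, (d i).1 x = 1) ∧
      (value (d p) (M d p) < α * value (d p) univ ∨
        value (d q) (M d q) < α * value (d q) univ) := by
  by_contra hcon
  push Not at hcon
  have key : ∀ f g : Density, α * value f univ ≤ value f (M (prof p q f g) p) ∧
      α * value g univ ≤ value g (M (prof p q f g) q) := by
    intro f g
    have := hcon (prof p q f g) (by
      intro i hip hiq x
      simp [prof, hip, hiq, oneD])
    rwa [prof_p, prof_q hpq] at this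
  exact no_fraction hM hpq hp hq ho hα (fun f g => (key f g).1) (fun f g => (key f g).2)

end Pool.Agent.Results.MP_b3d40b_lc.NoFixedFraction
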