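import Mathlib
import Pool.Agent.Helper83.CakeDefs
import Pool.Agent.Helper83.TwoAgentsProof

set_option autoImplicit false

open MeasureTheory Set

namespace Pool.Agent.Results.MP_b3d40b_lc.TwoAgents

open Pool.Agent.Helper83.Cake

/-- In the case of two agents, every truthful mechanism has a profile on which some agent
receives a piece of value zero. -/
theorem result (M : (Fin 2 → Density) → Fin 2 → Set unitInterval)
    (hM : IsMechanism M) (hT : Truthful M) : ∃ d i, value (d i) (M d i) = 0 :=
  Helper83.TwoA.main M hM hT

end Pool.Agent.Results.MP_b3d40b_lc.TwoAgents
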